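import Pool.Agent.N637.SLK.Ari
import Pool.Agent.N187.SLX.RK4

/-!
# Project SLK (helper637), part RK4: the theorem of Rédei and Reichardt on the 4-rank

The proof of helper187 (Pool.Agent.N187.SLX.RK4) without the conditions modulo 3 and 7: the classes of order
dividing four are counted by the divisors `d` of the radical of the discriminant whose local conditions hold
(`count4`); the rows of the linear system are the local conditions at the odd primes (`Sym.lk_iff`), the row at
`2` is a consequence of the others. (helper322)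
-/

set_option autoImplicit false

open scoped Classical

namespace Pool.Agent.N322.SLK

open Finset NumberField
open Pool.Agent.N187.SLX
open Pool.Agent.N637.SLX (NS IsLk)
open Pool.Agent.N637.SLK (TyG)
open Pool.Agent.N916.GB (Po Vt sy)
open Pool.Agent.Y755.FK (Rn)
open Pool.Agent.Y473.FK.Alg (Rep)

/-- SLK-RK4 -/
theorem t_RK4 : Pool.Agent.N637.SLK.S_RK4 := by
  intro t r s S m h _ K _ _ h2 hz
  rw [Nat.card_eq_fintype_card (α := {y : {x : ℕ // x ∈ Vt t S} → ZMod 2 // IsLk (NS t r s S) y}),
    Fintype.card_subtype]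
  have hS : ∀ p ∈ S, p.Prime ∧ p ≠ 2 := h.po
  obtain ⟨hus, hodd⟩ := Sym.uu_sum hS
  have hV : ∀ p ∈ Sym.Vt t S, p.Prime := Sym.prime_Vt hS
  -- the type of the discriminant
  have key : m = -((Sym.nn t r S : ℕ) : ℤ) ∧ Rn (Sym.nn t r S) = ∏ p ∈ Sym.Vt t S, p ∧
      ∑ q ∈ S, Sym.uu q = 1 + if t = true then s else 0 := by
    have hVt : ∏ p ∈ Sym.Vt true S, p = 2 * ∏ p ∈ S, p := by
      unfold Sym.Vt
      rw [if_pos rfl, Finset.prod_insert (Sym.two_not hS)]
    have hVf : ∏ p ∈ Sym.Vt false S, p = ∏ p ∈ S, p := by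
      unfold Sym.Vt
      rw [if_neg (by simp)]
    rw [hus]
    set b : ℕ := ∏ p ∈ S, p with hb
    rcases h.ty with ⟨rfl, rfl, hm, h4⟩ | ⟨rfl, rfl, rfl, hm, h4⟩ | ⟨rfl, rfl, rfl, hm, h4⟩ |
      ⟨rfl, rfl, rfl, hm, h4⟩
    · have hn : Sym.nn false r S = b := by
        unfold Sym.nn
        rw [if_neg (by simp), one_mul]
      have hb4 : b % 4 = 3 := by omega
      rw [hn, hVf]
      refine ⟨hm, ?_, ?_⟩
      · unfold Rn
        rw [if_neg (by omega)]
      · unfold Sym.uu
        rw [if_pos hb4, if_neg (by simp), add_zero]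
    · have hn : Sym.nn true 0 S = b := by
        unfold Sym.nn
        rw [if_neg (by rintro ⟨-, h⟩; exact absurd h (by decide)), one_mul]
      have hb4 : b % 4 = 1 := by omega
      rw [hn, hVt]
      refine ⟨hm, ?_, ?_⟩
      · unfold Rn
        rw [if_pos hb4]
      · unfold Sym.uu
        rw [if_neg (by omega), if_pos rfl]
        decide
    · have hn : Sym.nn true 1 S = 2 * b := by
        unfold Sym.nn
        rw [if_pos ⟨rfl, rfl⟩]
      rw [hn, hVt]
      refine ⟨by rw [hm, ← hb]; push_cast; ring, ?_, ?_⟩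
      · unfold Rn
        rw [if_neg (by omega)]
      · unfold Sym.uu
        rw [if_neg (by omega), if_pos rfl]
        decide
    · have hn : Sym.nn true 1 S = 2 * b := by
        unfold Sym.nn
        rw [if_pos ⟨rfl, rfl⟩]
      rw [hn, hVt]
      refine ⟨by rw [hm, ← hb]; push_cast; ring, ?_, ?_⟩
      · unfold Rn
        rw [if_neg (by omega)]
      · unfold Sym.uu
        rw [if_pos h4, if_pos rfl, add_zero]
  obtain ⟨hm, hR, hu⟩ := key
  set n : ℕ := Sym.nn t r S with hn
  have hnR : n ∣ Rn n := by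
    unfold Rn
    split_ifs
    · exact dvd_mul_left _ _
    · exact dvd_rfl
  have hsq : Squarefree n := by
    refine Squarefree.squarefree_of_dvd hnR ?_
    rw [hR]
    exact Sym.sqf hV
  have hc := count4 K h2 n hsq (by
    obtain ⟨z, hz⟩ := hz
    refine ⟨z, ?_⟩
    rw [hz, hm]
    push_cast
    rfl)
  rw [hc]
  congr 1
  have hcard := Sym.card_bij' hV (fun y => IsLk (fun q p : {x // x ∈ Sym.Vt t S} =>
    Sym.sy r s q.1 p.1) y) (Rep n) (fun y => by
      rw [lk_eq, Sym.lk_iff hS hu y, rep_iff hsq (by rw [hR]; exact Sym.Dy_dvd _ _), cd_eq])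
  rw [hR]
  refine hcard.symm.trans ?_
  have hVV := Vt_eq t S
  have hN : NS t r s S = fun q p : {x // x ∈ Vt t S} => Sym.sy r s q.1 p.1 := by
    funext q p
    exact sy_eq r s q.1 p.1
  rw [hN]
  generalize Sym.Vt t S = V at *
  subst hVV
  congr

end Pool.Agent.N322.SLK
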